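import Pool.Agent.Helper23.MV.StE

/-!
# Project MV: module GRW (growth of L-functions near the line `σ = 1`)
-/

set_option autoImplicit false

namespace Pool.Agent.Helper43.MV

open Finset ArithmeticFunction
open Pool.Agent.Helper23.MV

private theorem ds_bd {q : ℕ} (ψ : DirichletCharacter ℂ q) (y : ℝ) (hy : 1 ≤ y) (s : ℂ) :
    ‖DS ψ y s‖ ≤ y ^ (max 0 (1 - s.re)) * (1 + Real.log y) := by
  have hy0 : (0 : ℝ) < y := by linarith
  have hE0 : (0 : ℝ) ≤ max 0 (1 - s.re) := le_max_left _ _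
  unfold DS
  calc ‖∑ m ∈ Ioc 0 ⌊y⌋₊, ψ (m : ZMod q) * (m : ℂ) ^ (-s)‖
      ≤ ∑ m ∈ Ioc 0 ⌊y⌋₊, y ^ (max 0 (1 - s.re)) * ((m : ℝ))⁻¹ := by
        refine norm_sum_le_of_le _ ?_
        intro m hm
        rw [mem_Ioc] at hm
        have hm0 : (0 : ℝ) < m := by exact_mod_cast hm.1
        have hm1 : (1 : ℝ) ≤ m := by exact_mod_cast hm.1
        have hmy : (m : ℝ) ≤ y := le_trans (by exact_mod_cast hm.2) (Nat.floor_le hy0.le)
        rw [norm_mul, Complex.norm_natCast_cpow_of_pos hm.1]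
        have h1 : (m : ℝ) ^ (-s).re = (m : ℝ) ^ (1 - s.re) * (m : ℝ)⁻¹ := by
          rw [← Real.rpow_neg_one (m : ℝ), ← Real.rpow_add hm0]
          congr 1
          rw [Complex.neg_re]; ring
        have h2 : (m : ℝ) ^ (1 - s.re) ≤ y ^ (max 0 (1 - s.re)) :=
          (Real.rpow_le_rpow_of_exponent_le hm1 (le_max_right _ _)).trans
            (Real.rpow_le_rpow hm0.le hmy hE0)
        have h3 : ‖ψ (m : ZMod q)‖ ≤ 1 := DirichletCharacter.norm_le_one ψ _
        calc ‖ψ (m : ZMod q)‖ * (m : ℝ) ^ (-s).re ≤ 1 * (m : ℝ) ^ (-s).re :=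
              mul_le_mul_of_nonneg_right h3 (Real.rpow_nonneg hm0.le _)
          _ = (m : ℝ) ^ (1 - s.re) * (m : ℝ)⁻¹ := by rw [one_mul, h1]
          _ ≤ _ := mul_le_mul_of_nonneg_right h2 (inv_nonneg.mpr hm0.le)
    _ = y ^ (max 0 (1 - s.re)) * ((harmonic ⌊y⌋₊ : ℚ) : ℝ) := by
        rw [← mul_sum, harmonic_eq_sum_Icc]
        push_cast
        rfl
    _ ≤ _ := mul_le_mul_of_nonneg_left (harmonic_floor_le_one_add_log y hy)
        (Real.rpow_nonneg hy0.le _)

private theorem pw_le (y : ℝ) (hy : 1 ≤ y) (s : ℂ) :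
    ‖(y : ℂ) ^ (1 - s)‖ ≤ y ^ (max 0 (1 - s.re)) := by
  have hy0 : (0 : ℝ) < y := by linarith
  rw [Complex.norm_cpow_eq_rpow_re_of_pos hy0]
  have h1 : ((1 : ℂ) - s).re = 1 - s.re := by simp
  rw [h1]
  exact Real.rpow_le_rpow_of_exponent_le hy (le_max_right _ _)

private theorem tot_le (q : ℕ) [NeZero q] : ‖((q.totient : ℂ) / q)‖ ≤ 1 := by
  have hq : (0 : ℝ) < q := by exact_mod_cast Nat.pos_of_ne_zero (NeZero.ne q)
  rw [norm_div, Complex.norm_natCast, Complex.norm_natCast, div_le_one hq]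
  exact_mod_cast Nat.totient_le q

theorem hGrw (h1 : StTr1) (h2 : StTr2) : StGrw := by
  intro κ hκ hκ1
  obtain ⟨c₁, X₁, hc₁, hc₁κ, hX₁, H1⟩ := h1 κ hκ hκ1
  obtain ⟨c₂, X₂, hc₂, hc₂κ, hX₂, H2⟩ := h2 κ hκ hκ1
  refine ⟨min (min c₁ c₂) (1 / 8), max (max X₁ X₂) (Real.exp 3),
    lt_min (lt_min hc₁ hc₂) (by norm_num), min_le_right _ _,
    le_trans hX₁ (le_trans (le_max_left _ _) (le_max_left _ _)), ?_⟩
  intro X q _ ψ s hX hq hs1 hs2 hs3
  have hcc1 : min (min c₁ c₂) (1 / 8) ≤ c₁ := (min_le_left _ _).trans (min_le_left _ _)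
  have hcc2 : min (min c₁ c₂) (1 / 8) ≤ c₂ := (min_le_left _ _).trans (min_le_right _ _)
  have hXX1 : X₁ ≤ X := le_trans (le_trans (le_max_left _ _) (le_max_left _ _)) hX
  have hXX2 : X₂ ≤ X := le_trans (le_trans (le_max_right _ _) (le_max_left _ _)) hX
  have hXe : Real.exp 3 ≤ X := le_trans (le_max_right _ _) hX
  have hX1 : (1 : ℝ) ≤ X := by linarith
  have hX0 : (0 : ℝ) < X := by linarith
  have hL : 3 ≤ Real.log X := by
    rw [Real.le_log_iff_exp_le hX0]; exact hXe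
  have hy1 : (1 : ℝ) ≤ X ^ κ := Real.one_le_rpow hX1 hκ.le
  have hq1 : (q : ℝ) ≤ X ^ c₁ := hq.trans (Real.rpow_le_rpow_of_exponent_le hX1 hcc1)
  have hq2 : (q : ℝ) ≤ X ^ c₂ := hq.trans (Real.rpow_le_rpow_of_exponent_le hX1 hcc2)
  have hs11 : 1 - c₁ ≤ s.re := by linarith
  have hs12 : 1 - c₂ ≤ s.re := by linarith
  set P : ℝ := X ^ (κ * max 0 (1 - s.re)) with hP
  have hPy : (X ^ κ) ^ (max 0 (1 - s.re)) = P := by
    rw [hP, Real.rpow_mul hX0.le]
  have hP1 : 1 ≤ P := Real.one_le_rpow hX1 (mul_nonneg hκ.le (le_max_left _ _))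
  have hlogy : Real.log (X ^ κ) ≤ Real.log X := by
    rw [Real.log_rpow hX0]
    nlinarith
  have hDS : ∀ φ : DirichletCharacter ℂ q, ‖DS φ (X ^ κ) s‖ ≤ P * (1 + Real.log X) := by
    intro φ
    refine (ds_bd φ (X ^ κ) hy1 s).trans ?_
    rw [hPy]
    exact mul_le_mul_of_nonneg_left (by linarith) (by linarith)
  set L : ℝ := Real.log X with hLdef
  have hsq : 6 + L ≤ L ^ 2 := by nlinarith
  have hcu : 9 + 4 * L ≤ L ^ 3 := by
    have : L ^ 3 = L * L ^ 2 := by ring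
    rw [this]
    nlinarith
  have hpow : ∀ c' : ℝ, 0 < c' → X ^ (-c') ≤ 1 := fun c' hc' =>
    Real.rpow_le_one_of_one_le_of_nonpos hX1 (by linarith)
  by_cases hψ : ψ = 1
  · subst hψ
    -- the principal case
    have key : s ≠ 1 → ‖DirichletCharacter.LFunction (1 : DirichletCharacter ℂ q) s‖ ≤
        P * (2 + L) + P / ‖s - 1‖ := by
      intro hs
      have hT := H2 X (X ^ κ) q s hXX2 hq2 le_rfl hs hs12 hs2 hs3
      have hT' := hT.trans (hpow c₂ hc₂)
      have e1 : ‖((q.totient : ℂ) / q) * ((((X ^ κ : ℝ)) : ℂ) ^ (1 - s) / (1 - s))‖ ≤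
          P / ‖s - 1‖ := by
        rw [norm_mul, norm_div (((X ^ κ : ℝ) : ℂ) ^ (1 - s)) (1 - s), norm_sub_rev 1 s]
        have a1 := tot_le q
        have a2 := pw_le (X ^ κ) hy1 s
        rw [hPy] at a2
        have a3 : (0 : ℝ) < ‖s - 1‖ := norm_pos_iff.mpr (sub_ne_zero.mpr hs)
        have a4 : ‖(((X ^ κ : ℝ)) : ℂ) ^ (1 - s)‖ / ‖s - 1‖ ≤ P / ‖s - 1‖ :=
          div_le_div_of_nonneg_right a2 a3.le
        calc _ ≤ 1 * (‖(((X ^ κ : ℝ)) : ℂ) ^ (1 - s)‖ / ‖s - 1‖) :=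
              mul_le_mul_of_nonneg_right a1 (by positivity)
          _ ≤ _ := by rw [one_mul]; exact a4
      have e2 := hDS (1 : DirichletCharacter ℂ q)
      have e3 : DirichletCharacter.LFunction (1 : DirichletCharacter ℂ q) s =
          DS (1 : DirichletCharacter ℂ q) (X ^ κ) s -
            ((q.totient : ℂ) / q) * ((((X ^ κ : ℝ)) : ℂ) ^ (1 - s) / (1 - s)) -
          (DS (1 : DirichletCharacter ℂ q) (X ^ κ) s -
            DirichletCharacter.LFunction (1 : DirichletCharacter ℂ q) s -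
            ((q.totient : ℂ) / q) * ((((X ^ κ : ℝ)) : ℂ) ^ (1 - s) / (1 - s))) := by ring
      rw [e3]
      have b1 := norm_sub_le (DS (1 : DirichletCharacter ℂ q) (X ^ κ) s -
            ((q.totient : ℂ) / q) * ((((X ^ κ : ℝ)) : ℂ) ^ (1 - s) / (1 - s)))
          (DS (1 : DirichletCharacter ℂ q) (X ^ κ) s -
            DirichletCharacter.LFunction (1 : DirichletCharacter ℂ q) s -
            ((q.totient : ℂ) / q) * ((((X ^ κ : ℝ)) : ℂ) ^ (1 - s) / (1 - s)))
      have b2 := norm_sub_le (DS (1 : DirichletCharacter ℂ q) (X ^ κ) s)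
            (((q.totient : ℂ) / q) * ((((X ^ κ : ℝ)) : ℂ) ^ (1 - s) / (1 - s)))
      nlinarith
    constructor
    · intro h4
      have h4' := h4 rfl
      have hs : s ≠ 1 := by
        rintro rfl
        norm_num at h4'
      have hk := key hs
      have h5 : P / ‖s - 1‖ ≤ 4 * P := by
        rw [div_le_iff₀ (by linarith)]
        nlinarith
      calc _ ≤ P * (2 + L) + 4 * P := by linarith
        _ = P * (6 + L) := by ring
        _ ≤ P * L ^ 2 := mul_le_mul_of_nonneg_left hsq (by linarith)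
    · intro hs hs4
      have hk := key hs
      have a3 : (0 : ℝ) < ‖s - 1‖ := norm_pos_iff.mpr (sub_ne_zero.mpr hs)
      rw [norm_mul]
      calc ‖s - 1‖ * ‖DirichletCharacter.LFunction (1 : DirichletCharacter ℂ q) s‖
          ≤ ‖s - 1‖ * (P * (2 + L) + P / ‖s - 1‖) := mul_le_mul_of_nonneg_left hk a3.le
        _ = ‖s - 1‖ * (P * (2 + L)) + P := by
            rw [mul_add, mul_div_cancel₀ _ a3.ne']
        _ ≤ 4 * (P * (2 + L)) + P := by
            have : 0 ≤ P * (2 + L) := mul_nonneg (by linarith) (by linarith)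
            have := mul_le_mul_of_nonneg_right hs4 this
            linarith
        _ = P * (9 + 4 * L) := by ring
        _ ≤ P * L ^ 3 := mul_le_mul_of_nonneg_left hcu (by linarith)
  · -- the nonprincipal case
    have key : ‖DirichletCharacter.LFunction ψ s‖ ≤ P * (2 + L) := by
      have hT := (H1 X (X ^ κ) q ψ s hXX1 hq1 le_rfl hψ hs11 hs2 hs3).trans (hpow c₁ hc₁)
      have e2 := hDS ψ
      have e3 : DirichletCharacter.LFunction ψ s =
          DS ψ (X ^ κ) s - (DS ψ (X ^ κ) s - DirichletCharacter.LFunction ψ s) := by ring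
      rw [e3]
      have b1 := norm_sub_le (DS ψ (X ^ κ) s) (DS ψ (X ^ κ) s - DirichletCharacter.LFunction ψ s)
      nlinarith
    constructor
    · intro _
      refine key.trans (mul_le_mul_of_nonneg_left ?_ (by linarith))
      linarith
    · intro hs hs4
      rw [norm_mul]
      have h0 : 0 ≤ P * (2 + L) := mul_nonneg (by linarith) (by linarith)
      calc ‖s - 1‖ * ‖DirichletCharacter.LFunction ψ s‖ ≤ 4 * (P * (2 + L)) :=
            mul_le_mul hs4 key (norm_nonneg _) (by norm_num)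
        _ = P * (8 + 4 * L) := by ring
        _ ≤ P * L ^ 3 := mul_le_mul_of_nonneg_left (by linarith) (by linarith)

end Pool.Agent.Helper43.MV
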